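import Pool.Agent.TH609.E3.Dat

/-!
# Z3-G4c: bound of the basis at the poles
-/

open Polynomial Pool.Agent.H337R2

namespace Pool.Agent.TH609.E3.W565

open Pool.Agent.TH609.E3

lemma RK_nonneg {n k : ℕ} (hk : k ∈ Finset.Icc (5 * n + 1) (12 * n)) : 0 ≤ RK n k := by
  rw [Finset.mem_Icc] at hk
  unfold RK cF
  apply div_nonneg
  · apply mul_nonneg
    · positivity
    · apply mul_nonneg
      · apply Finset.prod_nonneg
        intro j hj
        rw [Finset.mem_Icc] at hj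
        rw [sub_nonneg]
        exact_mod_cast (by omega : j ≤ k)
      · apply Finset.prod_nonneg
        intro j hj
        rw [Finset.mem_Icc] at hj
        rw [sub_nonneg]
        exact_mod_cast (by omega : j ≤ k)
  · apply Finset.prod_nonneg
    intro m _
    positivity

/-- value of the node polynomial at the pole -/
noncomputable def qv (n k i : ℕ) : ℝ :=
  if i < nL then ((k : ℝ) - n - 1 / 2) ^ 2 + (cG i : ℝ) * (n : ℝ) ^ 2 else ((cG i : ℝ) * n - k) ^ 2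

lemma qv_nonneg (n k i : ℕ) : 0 ≤ qv n k i := by
  unfold qv
  have := cG_nonneg i
  split_ifs <;> positivity

lemma QB_val (n k i : ℕ) : (((QB n i).eval (-(k : ℚ)) : ℚ) : ℝ) = qv n k i := by
  unfold QB Lin qv
  split_ifs
  · simp only [eval_add, eval_pow, eval_X, eval_C]
    push_cast
    ring
  · simp only [eval_add, eval_pow, eval_X, eval_C]
    push_cast
    ring

lemma Lin_val (n k : ℕ) : (((Lin n).eval (-(k : ℚ)) : ℚ) : ℝ) = -((k : ℝ) - n - 1 / 2) := by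
  unfold Lin
  simp only [eval_add, eval_X, eval_C]
  push_cast
  ring

/-- the full product -/
noncomputable def FF (n k b : ℕ) : ℝ := ∏ i ∈ Finset.range nN, (qv n k i ^ 2) ^ (sG b i * (n / 60))

/-- the step product -/
noncomputable def GT (n k b : ℕ) : ℝ := ∏ i ∈ Finset.range nN, (qv n k i ^ 2) ^ (sG (b + 1) i - sG b i)

lemma FF_nonneg (n k b : ℕ) : 0 ≤ FF n k b := by unfold FF; positivity
lemma GT_nonneg (n k b : ℕ) : 0 ≤ GT n k b := by unfold GT; positivity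

lemma PA_val (n k b m j : ℕ) :
    |(((PA n b m j).eval (-(k : ℚ)) : ℚ) : ℝ)| ^ 2 =
      FF n k b * GT n k b ^ m * (((k : ℝ) - n - 1 / 2) ^ 2) ^ j := by
  rw [sq_abs]
  have e : (((PA n b m j).eval (-(k : ℚ)) : ℚ) : ℝ) =
      (∏ i ∈ Finset.range nN, qv n k i ^ (sG b i * (n / 60))) *
      (∏ i ∈ Finset.range nN, qv n k i ^ (sG (b + 1) i - sG b i)) ^ m *
      (-((k : ℝ) - n - 1 / 2)) ^ j := by
    unfold PA SB TB
    rw [eval_mul, eval_mul, eval_pow, eval_pow, eval_prod, eval_prod]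
    simp only [eval_pow]
    rw [Rat.cast_mul, Rat.cast_mul, Rat.cast_pow, Rat.cast_pow, Rat.cast_prod, Rat.cast_prod,
      Lin_val]
    simp only [Rat.cast_pow, QB_val]
  rw [e, mul_pow, mul_pow]
  unfold FF GT
  congr 1
  · congr 1
    · rw [← Finset.prod_pow]
      apply Finset.prod_congr rfl
      intro i _
      rw [← pow_mul, ← pow_mul, mul_comm]
    · rw [← pow_mul, mul_comm m 2, pow_mul, ← Finset.prod_pow]
      congr 1
      apply Finset.prod_congr rfl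
      intro i _
      rw [← pow_mul, ← pow_mul, mul_comm]
  · rw [← pow_mul, mul_comm j 2, pow_mul, neg_sq]

lemma FF_succ {n k b : ℕ} (hb : b < nB) : FF n k (b + 1) = FF n k b * GT n k b ^ (n / 60) := by
  unfold FF GT
  rw [← Finset.prod_pow, ← Finset.prod_mul_distrib]
  apply Finset.prod_congr rfl
  intro i hi
  rw [← pow_mul (qv n k i ^ 2) (sG (b + 1) i - sG b i), ← pow_add, ← add_mul,
    Nat.add_sub_cancel' (sG_mono hb i hi)]

lemma nk_nonneg (i : ℕ) (κ : ℝ) : 0 ≤ nk i κ := by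
  unfold nk
  have := cG_nonneg i
  split_ifs <;> positivity

lemma qv_le {n k : ℕ} (hn : 1 ≤ n) (hk : k ∈ Finset.Icc (5 * n + 1) (12 * n)) (i : ℕ) :
    qv n k i ≤ (n : ℝ) ^ 2 * nk i ((k : ℝ) / n) := by
  rw [Finset.mem_Icc] at hk
  have hn' : (1 : ℝ) ≤ n := by exact_mod_cast hn
  have hn0 : (n : ℝ) ≠ 0 := by linarith
  have hk' : 5 * (n : ℝ) + 1 ≤ k := by exact_mod_cast hk.1
  unfold qv nk
  split_ifs
  · have e : (n : ℝ) ^ 2 * (((k : ℝ) / n - 1) ^ 2 + (cG i : ℝ)) =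
        ((k : ℝ) - n) ^ 2 + (cG i : ℝ) * (n : ℝ) ^ 2 := by
      field_simp
    rw [e]
    have h1 : ((k : ℝ) - n - 1 / 2) ^ 2 ≤ ((k : ℝ) - n) ^ 2 := by
      apply pow_le_pow_left₀ <;> linarith
    linarith
  · have e : (n : ℝ) ^ 2 * (((k : ℝ) / n - (cG i : ℝ)) ^ 2) = ((cG i : ℝ) * n - k) ^ 2 := by
      field_simp
      ring
    rw [e]

lemma FF_le {n k b : ℕ} (hn : 1 ≤ n) (hk : k ∈ Finset.Icc (5 * n + 1) (12 * n)) (hb : b ≤ nB) :
    FF n k b ≤ (n : ℝ) ^ (4 * (ho b * (n / 60))) *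
      (∏ i ∈ Finset.range nN, nk i ((k : ℝ) / n) ^ (2 * sG b i)) ^ (n / 60) := by
  have e : (n : ℝ) ^ (4 * (ho b * (n / 60))) *
      (∏ i ∈ Finset.range nN, nk i ((k : ℝ) / n) ^ (2 * sG b i)) ^ (n / 60) =
      ∏ i ∈ Finset.range nN, (((n : ℝ) ^ 2 * nk i ((k : ℝ) / n)) ^ 2) ^
        (sG b i * (n / 60)) := by
    rw [← sum_sG hb, Finset.sum_mul, Finset.mul_sum, ← Finset.prod_pow_eq_pow_sum,
      ← Finset.prod_pow, ← Finset.prod_mul_distrib]
    apply Finset.prod_congr rfl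
    intro i _
    rw [mul_pow, mul_pow, ← pow_mul, ← pow_mul, ← pow_mul, ← pow_mul]
    congr 2 <;> ring
  rw [e]
  unfold FF
  apply Finset.prod_le_prod
  · intro i _
    positivity
  · intro i _
    apply pow_le_pow_left₀ (by positivity)
    exact pow_le_pow_left₀ (qv_nonneg n k i) (qv_le hn hk i) 2

/-- the constant factor -/
noncomputable def cc (n : ℕ) : ℝ := (11 * (n : ℝ)) ^ 480 * (Real.exp (n * PhiG) / 2 ^ (UU * (n / 60)))

lemma cc_pos {n : ℕ} (hn : 1 ≤ n) : 0 < cc n := by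
  have hn' : (0 : ℝ) < n := by exact_mod_cast hn
  unfold cc
  positivity

lemma exp_la {C : ℝ} (hC : 0 < C) (K n b : ℕ) (hn : 1 ≤ n) :
    Real.exp (la C K n b) * 2 ^ (tG b * (n / 60)) =
      (C * (n : ℝ) ^ K * Real.exp (n * PhiG)) * (n : ℝ) ^ (4 * (ho b * (n / 60))) *
        2 ^ (TO * (n / 60)) := by
  have h0 : (0 : ℝ) < n := by exact_mod_cast hn
  unfold la
  rw [sub_mul, sub_mul, Real.exp_sub, Real.exp_sub, Real.exp_add, Real.exp_add, Real.exp_add,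
    Real.exp_log hC]
  have e1 : Real.exp (K * Real.log n) = (n : ℝ) ^ K := by
    rw [Real.exp_nat_mul, Real.exp_log h0]
  have e2 : Real.exp (4 * ho b * (n / 60 : ℕ) * Real.log n) = (n : ℝ) ^ (4 * (ho b * (n / 60))) := by
    have : (4 * ho b * (n / 60 : ℕ) * Real.log n : ℝ) =
        ((4 * (ho b * (n / 60)) : ℕ) : ℝ) * Real.log n := by
      push_cast; ring
    rw [this, Real.exp_nat_mul, Real.exp_log h0]
  have e3 : ∀ a : ℕ, Real.exp ((a : ℝ) * (n / 60 : ℕ) * Real.log 2) = (2 : ℝ) ^ (a * (n / 60)) := by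
    intro a
    have : (a * (n / 60 : ℕ) * Real.log 2 : ℝ) =
        ((a * (n / 60) : ℕ) : ℝ) * Real.log 2 := by
      push_cast; ring
    rw [this, Real.exp_nat_mul, Real.exp_log (by norm_num)]
  rw [e1, e2, e3, e3]
  have e4 : (2 : ℝ) ^ (tG b * (n / 60)) ≠ 0 := by positivity
  have e5 : (2 : ℝ) ^ (TO * (n / 60)) ≠ 0 := by positivity
  field_simp

lemma corner {C : ℝ} {K : ℕ} (hC : 0 < C)
    (h : ∀ n k b : ℕ, 1 ≤ n → k ∈ Finset.Icc (5 * n + 1) (12 * n) →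
      b ≤ nB → ((RK n k : ℚ) : ℝ) * 2 ^ (tG b * (n / 60)) *
      (∏ i ∈ Finset.range nN, nk i ((k : ℝ) / n) ^ (2 * sG b i)) ^ (n / 60) ≤
      C * (n : ℝ) ^ K * 2 ^ ((UU + TO) * (n / 60))) {n k b : ℕ} (hn : 1 ≤ n)
    (hk : k ∈ Finset.Icc (5 * n + 1) (12 * n)) (hb : b ≤ nB) :
    cc n * ((RK n k : ℚ) : ℝ) * FF n k b ≤ Real.exp (la (C * 11 ^ 480) (K + 480) n b) := by
  have h0 : (0 : ℝ) < n := by exact_mod_cast hn
  have hR : (0 : ℝ) ≤ ((RK n k : ℚ) : ℝ) := by exact_mod_cast RK_nonneg hk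
  have h1 := h n k b hn hk hb
  have h2 := FF_le hn hk hb
  have hC' : 0 < C * 11 ^ 480 := by positivity
  have hpos : (0 : ℝ) < 2 ^ (tG b * (n / 60)) := by positivity
  refine le_of_mul_le_mul_right ?_ hpos
  rw [exp_la hC' (K + 480) n b hn]
  set P : ℝ := (∏ i ∈ Finset.range nN, nk i ((k : ℝ) / n) ^ (2 * sG b i)) ^ (n / 60)
    with hP
  set A : ℝ := (n : ℝ) ^ (4 * (ho b * (n / 60))) with hA
  have hA0 : 0 ≤ A := by rw [hA]; positivity
  have hcc := (cc_pos hn).le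
  calc cc n * ((RK n k : ℚ) : ℝ) * FF n k b * 2 ^ (tG b * (n / 60)) =
        (cc n * ((RK n k : ℚ) : ℝ) * 2 ^ (tG b * (n / 60))) * FF n k b := by ring
    _ ≤ (cc n * ((RK n k : ℚ) : ℝ) * 2 ^ (tG b * (n / 60))) * (A * P) :=
        mul_le_mul_of_nonneg_left h2 (mul_nonneg (mul_nonneg hcc hR) hpos.le)
    _ = (((RK n k : ℚ) : ℝ) * 2 ^ (tG b * (n / 60)) * P) * (cc n * A) := by ring
    _ ≤ (C * (n : ℝ) ^ K * 2 ^ ((UU + TO) * (n / 60))) * (cc n * A) :=
        mul_le_mul_of_nonneg_right h1 (mul_nonneg hcc hA0)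
    _ = _ := by
        unfold cc
        have e : (2 : ℝ) ^ (UU * (n / 60)) ≠ 0 := by positivity
        have e5 : (2 : ℝ) ^ ((UU + TO) * (n / 60)) = 2 ^ (UU * (n / 60)) * 2 ^ (TO * (n / 60)) := by
          rw [add_mul, pow_add]
        rw [e5, mul_pow, pow_add]
        field_simp

lemma interp {a q a0 b0 : ℝ} (ha : 0 ≤ a) (hq : 0 ≤ q) {S k : ℕ} (hS : 0 < S) (hk : k ≤ S)
    (h1 : a ≤ Real.exp a0) (h2 : a * q ^ S ≤ Real.exp b0) :
    a * q ^ k ≤ Real.exp ((1 - (k : ℝ) / S) * a0 + (k : ℝ) / S * b0) := by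
  have hS' : (S : ℝ) ≠ 0 := by exact_mod_cast hS.ne'
  apply le_of_pow_le_pow_left₀ hS.ne' (Real.exp_pos _).le
  have e1 : Real.exp ((1 - (k : ℝ) / S) * a0 + (k : ℝ) / S * b0) ^ S =
      Real.exp a0 ^ (S - k) * Real.exp b0 ^ k := by
    rw [← Real.exp_nat_mul, ← Real.exp_nat_mul, ← Real.exp_nat_mul, ← Real.exp_add]
    congr 1
    rw [Nat.cast_sub hk]
    field_simp
  have e2 : (a * q ^ k) ^ S = a ^ (S - k) * (a * q ^ S) ^ k := by
    rw [mul_pow, mul_pow, ← pow_mul, ← pow_mul, ← mul_assoc, ← pow_add, Nat.sub_add_cancel hk,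
      mul_comm k S]
  rw [e1, e2]
  have h3 : a ^ (S - k) ≤ Real.exp a0 ^ (S - k) := pow_le_pow_left₀ ha h1 _
  have h4 : (a * q ^ S) ^ k ≤ Real.exp b0 ^ k := pow_le_pow_left₀ (by positivity) h2 _
  exact mul_le_mul h3 h4 (by positivity) (by positivity)

theorem G4c_of (h : StR3) : StG4c := by
  obtain ⟨C, K, hC, h⟩ := h
  refine ⟨C * 11 ^ 480, K + 480, by positivity, ?_⟩
  intro n hn b m j hp k hk
  have hn1 : 1 ≤ n := by omega
  have hn' : (1 : ℝ) ≤ n := by exact_mod_cast hn1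
  have h0 : (0 : ℝ) < n := by linarith
  have hR : (0 : ℝ) ≤ ((RK n k : ℚ) : ℝ) := by exact_mod_cast RK_nonneg hk
  have hN : 0 < n / 60 := Nat.div_pos hn (by norm_num)
  have hcc := cc_pos hn1
  -- the key bound
  have key : cc n * ((RK n k : ℚ) : ℝ) * FF n k b * GT n k b ^ m ≤
      Real.exp (al (C * 11 ^ 480) (K + 480) n b m) ∧ 2 * j ≤ 480 := by
    rcases hp with ⟨hb, hm, hj⟩ | ⟨rfl, rfl, hj⟩
    · have c1 := corner hC h hn1 hk (b := b) (by omega)
      have c2 := corner hC h hn1 hk (b := b + 1) (by omega)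
      rw [FF_succ hb, ← mul_assoc] at c2
      have h3 := interp (mul_nonneg (mul_nonneg hcc.le hR) (FF_nonneg n k b)) (GT_nonneg n k b) hN
        hm.le c1 c2
      refine ⟨h3, ?_⟩
      have := ho_le' (b + 1)
      omega
    · have c1 := corner hC h hn1 hk (b := nB) le_rfl
      refine ⟨?_, by omega⟩
      rw [pow_zero, mul_one]
      refine c1.trans (le_of_eq ?_)
      unfold al
      congr 1
      simp
  obtain ⟨k1, k2⟩ := key
  have hkk := Finset.mem_Icc.1 hk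
  have hk1 : 5 * (n : ℝ) + 1 ≤ k := by exact_mod_cast hkk.1
  have hk2 : (k : ℝ) ≤ 12 * n := by exact_mod_cast hkk.2
  have hL : (((k : ℝ) - n - 1 / 2) ^ 2) ^ j ≤ (11 * (n : ℝ)) ^ 480 := by
    rw [← pow_mul]
    calc ((k : ℝ) - n - 1 / 2) ^ (2 * j) ≤ (11 * (n : ℝ)) ^ (2 * j) := by
          apply pow_le_pow_left₀ <;> linarith
      _ ≤ _ := pow_le_pow_right₀ (by linarith) k2
  rw [PA_val]
  have hF := FF_nonneg n k b
  have hG := GT_nonneg n k b
  have e2 : (2 : ℝ) ^ (UU * (n / 60)) ≠ 0 := by positivity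
  calc ((RK n k : ℚ) : ℝ) * (FF n k b * GT n k b ^ m * (((k : ℝ) - n - 1 / 2) ^ 2) ^ j) ≤
        ((RK n k : ℚ) : ℝ) * (FF n k b * GT n k b ^ m * (11 * (n : ℝ)) ^ 480) := by gcongr
    _ = (cc n * ((RK n k : ℚ) : ℝ) * FF n k b * GT n k b ^ m) *
        (Real.exp (-(n * PhiG)) * 2 ^ (UU * (n / 60))) := by
        unfold cc
        rw [Real.exp_neg]
        have e3 : Real.exp (n * PhiG) ≠ 0 := (Real.exp_pos _).ne'
        field_simp
    _ ≤ _ := mul_le_mul_of_nonneg_right k1 (by positivity)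

end Pool.Agent.TH609.E3.W565
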